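import Pool.Agent.Twf.Prd
import Pool.Agent.Isf.QIT
import Pool.Agent.Isf.Iso
import Pool.Agent.Isf.Du

/-!
# The isotypies for the inertial quotients with a normal `2`-complement
-/

set_option autoImplicit false

namespace Pool.Agent.Isf

open Pool.Agent.KB Pool.Agent.KBZ Pool.Agent.KBQ Pool.Agent.PIs Pool.Agent.Ity Pool.Agent.MkS Pool.Agent.Two
open Pool.Agent.Twf

/-- a group of at most two elements -/
private theorem two_comm {E : Type} [Group E] [Finite E] (h : Nat.card E < 3) :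
    (∀ x y : E, x * y = y * x) ∧ ∃ a : ℕ, Nat.card E = 2 ^ a := by
  have h0 : 0 < Nat.card E := Nat.card_pos
  have h1 : Nat.card E = 1 ∨ Nat.card E = 2 := by omega
  rcases h1 with h1 | h1
  · have h2 := (Nat.card_eq_one_iff_unique.1 h1).1
    exact ⟨fun x y => Subsingleton.elim _ _, 0, by rw [h1, pow_zero]⟩
  · have : Fact (Nat.Prime 2) := ⟨Nat.prime_two⟩
    have hc : IsCyclic E := isCyclic_of_prime_card h1
    let _ : CommGroup E := hc.commGroup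
    refine ⟨fun x y => ?_, 1, by rw [h1, pow_one]⟩
    obtain ⟨g, hg⟩ := hc.exists_generator
    obtain ⟨a, rfl⟩ := Subgroup.mem_zpowers_iff.1 (hg x)
    obtain ⟨b, rfl⟩ := Subgroup.mem_zpowers_iff.1 (hg y)
    rw [← zpow_add, ← zpow_add, add_comm]

/-- The degree vectors of a group are unique if a subgroup of index at most two has cyclic Sylow subgroups. -/
theorem du_of_sub {M : Type} [Group M] {E S : Subgroup M} [Fintype E] (hSE : S ≤ E) (hi : S.relIndex E ≤ 2)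
    (hZ : ∀ (q : ℕ) (Q : Subgroup M), q.Prime → Q ≤ S → IsPGroup q Q → IsCyclic Q) : DU E := by
  classical
  have h0 : (S.subgroupOf E).index ≠ 0 := Subgroup.index_ne_zero_of_finite
  have hB : BI (S.subgroupOf E) := by
    refine bi_of_pgroup ?_
    intro q Q hq hQ
    let f : S.subgroupOf E →* M := E.subtype.comp (S.subgroupOf E).subtype
    have hf : Function.Injective f := (Subgroup.subtype_injective _).comp (Subgroup.subtype_injective _)
    have hle : Q.map f ≤ S := by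
      rintro _ ⟨x, _, rfl⟩
      exact x.2
    have h1 : IsCyclic (Q.map f) := hZ q _ hq hle (IsPGroup.map hQ _)
    have e := Q.equivMapOfInjective f hf
    exact isCyclic_of_surjective e.symm e.symm.surjective
  have h1 : (S.subgroupOf E).index = 1 ∨ (S.subgroupOf E).index = 2 := by
    have h2 : (S.subgroupOf E).index ≤ 2 := hi
    omega
  rcases h1 with h1 | h1
  · have h2 : S.subgroupOf E = ⊤ := Subgroup.index_eq_one.1 h1
    rw [h2] at hB
    have hB' : BI E := BIz.equiv (Subgroup.topEquiv (G := E)) hB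
    exact DU.of_bi hB'
  · have : (S.subgroupOf E).Normal := Subgroup.normal_of_index_eq_two h1
    exact du_index h1 hB

/-- The isotypies. -/
theorem iso8 (G : Type) [Group G] [Finite G] (p : ℕ) (hp : p.Prime)
    (𝔪 : Ideal AInt) (h𝔪 : 𝔪.IsMaximal) (hp𝔪 : (p : AInt) ∈ 𝔪)
    (χ : G → ℂ) (hχ : χ ∈ Irr G)
    (D : Subgroup G) (hab : ∀ a ∈ D, ∀ b ∈ D, a * b = b * a)
    (hD : Nat.card D = p ^ defect p (block 𝔪 χ))
    (ζ : Subgroup.centralizer (D : Set G) → ℂ)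
    (hζ : ζ ∈ Irr (Subgroup.centralizer (D : Set G)))
    (hind : Induces 𝔪 (Subgroup.centralizer (D : Set G)) ζ χ)
    (hfree : ∀ x : D, (∀ α ∈ IQ 𝔪 D ζ, α x = x) ∨ ∀ α ∈ IQ 𝔪 D ζ, α x = x → α = 1)
    (hE : ProdS p (IQ 𝔪 D ζ) (Subgroup.closure {x : D | ∃ α ∈ IQ 𝔪 D ζ, ∃ v, x = α v * v⁻¹}) ∨
      LgeS p (IQ 𝔪 D ζ) (Subgroup.closure {x : D | ∃ α ∈ IQ 𝔪 D ζ, ∃ v, x = α v * v⁻¹}))
    (hp2 : p ≠ 2) (hZ : ∃ S ≤ IQ 𝔪 D ζ, S.relIndex (IQ 𝔪 D ζ) ≤ 2 ∧
      ∀ (q : ℕ) (Q : Subgroup (MulAut D)), q.Prime → Q ≤ S → IsPGroup q Q → IsCyclic Q)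
    (hD1 : D ≠ ⊥) : ConBrI G p 𝔪 χ D ζ ∧ ConAllI G p 𝔪 χ D ζ := by
  classical
  have hfin : Finite (MulAut D) := inferInstance
  let hft : Fintype (IQ 𝔪 D ζ) := Fintype.ofFinite _
  obtain ⟨S, hSE, hi, hZ⟩ := hZ
  by_cases h3 : 3 ≤ Nat.card (IQ 𝔪 D ζ)
  · obtain ⟨r, hr, hT⟩ := two_of_sub (IQ 𝔪 D ζ) (hE.imp_left ProdS.parts)
    exact iso_free_I qiT G p hp 𝔪 h𝔪 hp𝔪 χ hχ D hab hD ζ hζ hind hfree r hr hT hp2 h3 fun _ => du_of_sub hSE hi hZ
  · obtain ⟨h1, a, h2⟩ := two_comm (E := IQ 𝔪 D ζ) (by omega)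
    refine Lrg.iso_free G p hp 𝔪 h𝔪 hp𝔪 χ hχ D hab hD ζ hζ hind hfree hD1 (fun α hα β hβ => ?_)
      (Or.inl ⟨2, 2, a, 0, Nat.prime_two, Nat.prime_two, by rw [h2, pow_zero, mul_one]⟩)
    exact congrArg Subtype.val (h1 ⟨α, hα⟩ ⟨β, hβ⟩)

end Pool.Agent.Isf
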