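import Pool.Agent.Isf.DcI
import Pool.Agent.Isf.End8

/-!
# The isotypies in the cases (II), (III), (IV)
-/

set_option autoImplicit false

namespace Pool.Agent.Isf

open Pool.Agent.KB Pool.Agent.KBZ Pool.Agent.KBQ Pool.Agent.PIs Pool.Agent.Ity Pool.Agent.MkS Pool.Agent.Two
open Pool.Agent.Twf

/-- The restriction of the action of `F` to `[D, F]`. -/
theorem exists_res {D : Type} [Group D] (F : Subgroup (MulAut D)) :
    ∃ r : F →* MulAut (Subgroup.closure {x : D | ∃ α ∈ F, ∃ v, x = α v * v⁻¹}),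
      ∀ α v, ((r α v : Subgroup.closure {x : D | ∃ α ∈ F, ∃ v, x = α v * v⁻¹}) : D) = α.1 v := by
  obtain ⟨C, hC⟩ : ∃ C : Subgroup D, C = Subgroup.closure {x : D | ∃ α ∈ F, ∃ v, x = α v * v⁻¹} := ⟨_, rfl⟩
  rw [← hC]
  have hst : ∀ β : F, ∀ v ∈ C, β.1 v ∈ C := by
    intro β
    have h1 : C ≤ C.comap β.1.toMonoidHom := by
      conv_lhs => rw [hC]
      rw [Subgroup.closure_le]
      rintro _ ⟨α, hα, v, rfl⟩
      show β.1 (α v * v⁻¹) ∈ C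
      rw [map_mul, map_inv, hC]
      refine Subgroup.subset_closure ⟨β.1 * α * β.1⁻¹, F.mul_mem (F.mul_mem β.2 hα) (F.inv_mem β.2), β.1 v, ?_⟩
      rw [MulAut.mul_apply, MulAut.mul_apply, MulAut.inv_apply_self]
    exact fun v hv => h1 hv
  let r : F →* MulAut C :=
    { toFun := fun β =>
        { toFun := fun v => ⟨β.1 v, hst β v v.2⟩
          invFun := fun v => ⟨β⁻¹.1 v, hst β⁻¹ v v.2⟩
          left_inv := fun v => Subtype.ext (by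
            show (β⁻¹).1 (β.1 v) = v
            rw [Subgroup.coe_inv, MulAut.inv_apply_self])
          right_inv := fun v => Subtype.ext (by
            show β.1 ((β⁻¹).1 v) = v
            rw [Subgroup.coe_inv, MulAut.apply_inv_self])
          map_mul' := fun v w => Subtype.ext (map_mul β.1 (v : D) w) }
      map_one' := rfl
      map_mul' := fun β γ => rfl }
  exact ⟨r, fun α v => rfl⟩

/-- The degree vectors of a dicyclic group. -/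
theorem du_dic {E : Type} [Group E] [Fintype E] {N : ℕ} {a b : E} (h : Evn.Dic N a b) : DU E := by
  have hE : Nat.card E = 4 * N := h.card
  have hS : Nat.card (Subgroup.zpowers a) = 2 * N := by rw [Nat.card_zpowers, h.ord]
  have hN := h.N2
  have h1 : (Subgroup.zpowers a).index = 2 := by
    have h2 := (Subgroup.zpowers a).index_mul_card
    rw [hE, hS] at h2
    have h3 : (Subgroup.zpowers a).index * (2 * N) = 2 * (2 * N) := by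
      rw [h2]
      ring
    exact Nat.eq_of_mul_eq_mul_right (by omega) h3
  have h2 : (Subgroup.zpowers a).Normal := Subgroup.normal_of_index_eq_two h1
  refine du_index h1 (bi_of_pgroup ?_)
  intro q Q _ _
  infer_instance

/-- The isotypies in the case (III). -/
theorem iso_dic (G : Type) [Group G] [Finite G] (p : ℕ) (hp : p.Prime)
    (𝔪 : Ideal AInt) (h𝔪 : 𝔪.IsMaximal) (hp𝔪 : (p : AInt) ∈ 𝔪)
    (χ : G → ℂ) (hχ : χ ∈ Irr G)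
    (D : Subgroup G) (hab : ∀ a ∈ D, ∀ b ∈ D, a * b = b * a)
    (hD : Nat.card D = p ^ defect p (block 𝔪 χ))
    (ζ : Subgroup.centralizer (D : Set G) → ℂ)
    (hζ : ζ ∈ Irr (Subgroup.centralizer (D : Set G)))
    (hind : Induces 𝔪 (Subgroup.centralizer (D : Set G)) ζ χ)
    (hfree : ∀ x : D, (∀ α ∈ IQ 𝔪 D ζ, α x = x) ∨ ∀ α ∈ IQ 𝔪 D ζ, α x = x → α = 1)
    (hx : ∀ α ∈ IQ 𝔪 D ζ, α ^ (p - 1) = 1) (hp2 : p ≠ 2)
    (hE : ∃ N, 2 ≤ N ∧ Nonempty (IQ 𝔪 D ζ ≃* QuaternionGroup N) ∧ (Nat.card (IQ 𝔪 D ζ) + 1) ^ 2 ≤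
      Nat.card (Subgroup.closure {x : D | ∃ α ∈ IQ 𝔪 D ζ, ∃ v, x = α v * v⁻¹})) :
    ConBrI G p 𝔪 χ D ζ ∧ ConAllI G p 𝔪 χ D ζ := by
  classical
  have hfin : Finite (MulAut D) := inferInstance
  let hft : Fintype (IQ 𝔪 D ζ) := Fintype.ofFinite _
  obtain ⟨N, hN, ⟨e⟩, hb⟩ := hE
  obtain ⟨a, b, h⟩ := Evn.exists_dic hN e
  obtain ⟨r, hr⟩ := exists_res (IQ 𝔪 D ζ)
  have h3 : 3 ≤ Nat.card (IQ 𝔪 D ζ) := by
    rw [h.card]
    omega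
  exact iso_free_I qiD G p hp 𝔪 h𝔪 hp𝔪 χ hχ D hab hD ζ hζ hind hfree r hr
    ⟨fun x => Subtype.ext (hx x x.2), N, hN, ⟨e⟩, hb⟩ hp2 h3 fun _ => du_dic h

/-- The isotypies in the cases (II), (III), (IV). -/
theorem iso9 (G : Type) [Group G] [Finite G] (p : ℕ) (hp : p.Prime)
    (𝔪 : Ideal AInt) (h𝔪 : 𝔪.IsMaximal) (hp𝔪 : (p : AInt) ∈ 𝔪)
    (χ : G → ℂ) (hχ : χ ∈ Irr G)
    (D : Subgroup G) (hab : ∀ a ∈ D, ∀ b ∈ D, a * b = b * a)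
    (hD : Nat.card D = p ^ defect p (block 𝔪 χ))
    (ζ : Subgroup.centralizer (D : Set G) → ℂ)
    (hζ : ζ ∈ Irr (Subgroup.centralizer (D : Set G)))
    (hind : Induces 𝔪 (Subgroup.centralizer (D : Set G)) ζ χ)
    (hfree : ∀ x : D, (∀ α ∈ IQ 𝔪 D ζ, α x = x) ∨ ∀ α ∈ IQ 𝔪 D ζ, α x = x → α = 1)
    (hE : ProdS p (IQ 𝔪 D ζ) (Subgroup.closure {x : D | ∃ α ∈ IQ 𝔪 D ζ, ∃ v, x = α v * v⁻¹}) ∨
      LgeS p (IQ 𝔪 D ζ) (Subgroup.closure {x : D | ∃ α ∈ IQ 𝔪 D ζ, ∃ v, x = α v * v⁻¹}) ∨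
      ((∀ α ∈ IQ 𝔪 D ζ, α ^ (p - 1) = 1) ∧ ∃ N, 2 ≤ N ∧ Nonempty (IQ 𝔪 D ζ ≃* QuaternionGroup N) ∧
        (Nat.card (IQ 𝔪 D ζ) + 1) ^ 2 ≤
          Nat.card (Subgroup.closure {x : D | ∃ α ∈ IQ 𝔪 D ζ, ∃ v, x = α v * v⁻¹})))
    (hp2 : p ≠ 2) (hZ : ∃ S ≤ IQ 𝔪 D ζ, S.relIndex (IQ 𝔪 D ζ) ≤ 2 ∧
      ∀ (q : ℕ) (Q : Subgroup (MulAut D)), q.Prime → Q ≤ S → IsPGroup q Q → IsCyclic Q)
    (hD1 : D ≠ ⊥) : ConBrI G p 𝔪 χ D ζ ∧ ConAllI G p 𝔪 χ D ζ := by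
  rcases hE with h | h | ⟨h1, h2⟩
  · exact iso8 G p hp 𝔪 h𝔪 hp𝔪 χ hχ D hab hD ζ hζ hind hfree (Or.inl h) hp2 hZ hD1
  · exact iso8 G p hp 𝔪 h𝔪 hp𝔪 χ hχ D hab hD ζ hζ hind hfree (Or.inr h) hp2 hZ hD1
  · exact iso_dic G p hp 𝔪 h𝔪 hp𝔪 χ hχ D hab hD ζ hζ hind hfree h1 hp2 h2

end Pool.Agent.Isf
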